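import Pool.Agent.helper50.MA.Spec1

/-!
# PROJECT ma, module C1: covariance of `dens` under holomorphic maps
-/

set_option autoImplicit false

open MeasureTheory Set Filter Topology Complex
open scoped ContDiff Real

namespace MAP

noncomputable section

theorem C1_dec (ξ : C2) : ξ = ξ.1.re • e1 + ξ.1.im • (I • e1) + ξ.2.re • e2 + ξ.2.im • (I • e2) := by
  ext <;> simp [e1, e2]

/-- expansion of a real bilinear form on `C2` -/
theorem C1_exp (B : C2 →L[ℝ] C2 →L[ℝ] ℝ) (ξ η : C2) :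
    B ξ η = ξ.1.re * (η.1.re * B e1 e1 + η.1.im * B e1 (I • e1) + η.2.re * B e1 e2 + η.2.im * B e1 (I • e2)) +
      ξ.1.im * (η.1.re * B (I • e1) e1 + η.1.im * B (I • e1) (I • e1) + η.2.re * B (I • e1) e2 +
        η.2.im * B (I • e1) (I • e2)) +
      ξ.2.re * (η.1.re * B e2 e1 + η.1.im * B e2 (I • e1) + η.2.re * B e2 e2 + η.2.im * B e2 (I • e2)) +
      ξ.2.im * (η.1.re * B (I • e2) e1 + η.1.im * B (I • e2) (I • e1) + η.2.re * B (I • e2) e2 +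
        η.2.im * B (I • e2) (I • e2)) := by
  conv_lhs => rw [C1_dec ξ, C1_dec η]
  simp only [map_add, map_smul, ContinuousLinearMap.add_apply, ContinuousLinearMap.smul_apply, smul_eq_mul]
  ring

/-- real part of the Hermitian form of `B` -/
def C1_Hr (B : C2 →L[ℝ] C2 →L[ℝ] ℝ) (ξ η : C2) : ℝ := B ξ η + B (I • ξ) (I • η)
/-- imaginary part of the Hermitian form of `B` -/
def C1_Hi (B : C2 →L[ℝ] C2 →L[ℝ] ℝ) (ξ η : C2) : ℝ := B ξ (I • η) - B (I • ξ) η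

theorem C1_Hr_exp (B : C2 →L[ℝ] C2 →L[ℝ] ℝ) (hs : ∀ ξ η, B ξ η = B η ξ) (ξ η : C2) :
    C1_Hr B ξ η = (ξ.1.re * η.1.re + ξ.1.im * η.1.im) * C1_Hr B e1 e1 +
      (ξ.2.re * η.2.re + ξ.2.im * η.2.im) * C1_Hr B e2 e2 +
      (ξ.1.re * η.2.re + ξ.1.im * η.2.im) * C1_Hr B e1 e2 -
      (ξ.1.im * η.2.re - ξ.1.re * η.2.im) * C1_Hi B e1 e2 +
      (ξ.2.re * η.1.re + ξ.2.im * η.1.im) * C1_Hr B e1 e2 +
      (ξ.2.im * η.1.re - ξ.2.re * η.1.im) * C1_Hi B e1 e2 := by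
  unfold C1_Hr C1_Hi
  rw [C1_exp B ξ η, C1_exp B (I • ξ) (I • η), C1_exp B (I • e1) (I • e1), C1_exp B (I • e2) (I • e2),
    C1_exp B (I • e1) (I • e2), C1_exp B e1 (I • e2)]
  simp only [e1, e2, Prod.smul_mk, smul_eq_mul, mul_one, mul_zero, I_re, I_im, zero_re, zero_im, one_re, one_im,
    Prod.smul_fst, Prod.smul_snd, mul_re, mul_im, zero_mul, one_mul, zero_sub, zero_add, add_zero, sub_zero]
  rw [hs (I, 0) (1, 0), hs (0, 1) (1, 0), hs (0, I) (1, 0), hs (0, 1) (I, 0), hs (0, I) (I, 0), hs (0, I) (0, 1)]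
  ring

theorem C1_Hi_exp (B : C2 →L[ℝ] C2 →L[ℝ] ℝ) (hs : ∀ ξ η, B ξ η = B η ξ) (ξ η : C2) :
    C1_Hi B ξ η = (ξ.1.im * η.1.re - ξ.1.re * η.1.im) * C1_Hr B e1 e1 +
      (ξ.2.im * η.2.re - ξ.2.re * η.2.im) * C1_Hr B e2 e2 +
      (ξ.1.im * η.2.re - ξ.1.re * η.2.im) * C1_Hr B e1 e2 +
      (ξ.1.re * η.2.re + ξ.1.im * η.2.im) * C1_Hi B e1 e2 +
      (ξ.2.im * η.1.re - ξ.2.re * η.1.im) * C1_Hr B e1 e2 -
      (ξ.2.re * η.1.re + ξ.2.im * η.1.im) * C1_Hi B e1 e2 := by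
  have h : C1_Hi B ξ η = - C1_Hr B (I • ξ) η ∨ C1_Hi B ξ η = C1_Hr B ξ (I • η) := by
    right
    unfold C1_Hr C1_Hi
    have : I • (I • η) = -η := by
      rw [smul_smul, I_mul_I, neg_one_smul]
    rw [this, map_neg]
    ring
  rcases h with h | h
  · rw [h, C1_Hr_exp B hs]
    simp only [Prod.smul_fst, Prod.smul_snd, smul_eq_mul, mul_re, mul_im, I_re, I_im]
    ring
  · rw [h, C1_Hr_exp B hs]
    simp only [Prod.smul_fst, Prod.smul_snd, smul_eq_mul, mul_re, mul_im, I_re, I_im]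
    ring

/-- second derivative of a composition -/
theorem C1_chain (U V : Set C2) (F : C2 → C2) (u : C2 → ℝ) (hU : IsOpen U) (hV : IsOpen V)
    (hF : ContDiffOn ℂ 2 F V) (hFU : MapsTo F V U) (hu : ContDiffOn ℝ 2 u U) (x : C2) (hx : x ∈ V) (ξ η : C2) :
    D2 (fun y => u (F y)) x ξ η = D2 u (F x) (fderiv ℂ F x ξ) (fderiv ℂ F x η) +
      fderiv ℝ u (F x) (fderiv ℂ (fderiv ℂ F) x ξ η) := by
  have hFx : ∀ y ∈ V, DifferentiableAt ℂ F y := fun y hy =>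
    (hF.contDiffAt (hV.mem_nhds hy)).differentiableAt (by norm_num)
  have hux : ∀ z ∈ U, DifferentiableAt ℝ u z := fun z hz =>
    (hu.contDiffAt (hU.mem_nhds hz)).differentiableAt (by norm_num)
  have h1 : fderiv ℝ (fun y => u (F y)) =ᶠ[𝓝 x] fun y => (fderiv ℝ u (F y)).comp ((fderiv ℂ F y).restrictScalars ℝ) := by
    filter_upwards [hV.mem_nhds hx] with y hy
    have := fderiv_comp y (hux (F y) (hFU hy)) ((hFx y hy).restrictScalars ℝ)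
    rw [(hFx y hy).fderiv_restrictScalars ℝ] at this
    exact this
  have hdu : HasFDerivAt (fderiv ℝ u) (fderiv ℝ (fderiv ℝ u) (F x)) (F x) := by
    have := (hu.contDiffAt (hU.mem_nhds (hFU hx))).fderiv_right (m := 1) (by norm_num)
    exact (this.differentiableAt (by norm_num)).hasFDerivAt
  have hdF : HasFDerivAt (fderiv ℂ F) (fderiv ℂ (fderiv ℂ F) x) x := by
    have := (hF.contDiffAt (hV.mem_nhds hx)).fderiv_right (m := 1) (by norm_num)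
    exact (this.differentiableAt (by norm_num)).hasFDerivAt
  have hF1 : HasFDerivAt F ((fderiv ℂ F x).restrictScalars ℝ) x := (hFx x hx).hasFDerivAt.restrictScalars ℝ
  have hc : HasFDerivAt (fun y => fderiv ℝ u (F y))
      ((fderiv ℝ (fderiv ℝ u) (F x)).comp ((fderiv ℂ F x).restrictScalars ℝ)) x := hdu.comp x hF1
  have hd : HasFDerivAt (fun y => (fderiv ℂ F y).restrictScalars ℝ)
      ((ContinuousLinearMap.restrictScalarsL ℂ C2 C2 ℝ ℝ).comp ((fderiv ℂ (fderiv ℂ F) x).restrictScalars ℝ)) x :=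
    (ContinuousLinearMap.restrictScalarsL ℂ C2 C2 ℝ ℝ).hasFDerivAt.comp x (hdF.restrictScalars ℝ)
  have h2 := (hc.clm_comp hd).fderiv
  unfold D2
  rw [h1.fderiv_eq, h2]
  simp [add_comm]

theorem C1_sym (U : Set C2) (u : C2 → ℝ) (hU : IsOpen U) (hu : ContDiffOn ℝ 2 u U) (z : C2) (hz : z ∈ U)
    (ξ η : C2) : fderiv ℝ (fderiv ℝ u) z ξ η = fderiv ℝ (fderiv ℝ u) z η ξ :=
  (hu.contDiffAt (hU.mem_nhds hz)).isSymmSndFDerivAt (by simp) ξ η

theorem C1_H (U V : Set C2) (F : C2 → C2) (u : C2 → ℝ) (hU : IsOpen U) (hV : IsOpen V)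
    (hF : ContDiffOn ℂ 2 F V) (hFU : MapsTo F V U) (hu : ContDiffOn ℝ 2 u U) (x : C2) (hx : x ∈ V) (ξ η : C2) :
    C1_Hr (fderiv ℝ (fderiv ℝ (fun y => u (F y))) x) ξ η =
      C1_Hr (fderiv ℝ (fderiv ℝ u) (F x)) (fderiv ℂ F x ξ) (fderiv ℂ F x η) ∧
    C1_Hi (fderiv ℝ (fderiv ℝ (fun y => u (F y))) x) ξ η =
      C1_Hi (fderiv ℝ (fderiv ℝ u) (F x)) (fderiv ℂ F x ξ) (fderiv ℂ F x η) := by
  have key := C1_chain U V F u hU hV hF hFU hu x hx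
  unfold D2 at key
  have eI : ∀ w : C2, fderiv ℂ F x (I • w) = I • fderiv ℂ F x w := fun w => map_smul _ _ _
  have q1 : ∀ a b : C2, fderiv ℂ (fderiv ℂ F) x a (I • b) = I • fderiv ℂ (fderiv ℂ F) x a b :=
    fun a b => map_smul _ _ _
  have q2 : ∀ a b : C2, fderiv ℂ (fderiv ℂ F) x (I • a) b = I • fderiv ℂ (fderiv ℂ F) x a b := by
    intro a b
    have : fderiv ℂ (fderiv ℂ F) x (I • a) = I • fderiv ℂ (fderiv ℂ F) x a := map_smul _ _ _
    rw [this]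
    rfl
  have q3 : fderiv ℂ (fderiv ℂ F) x (I • ξ) (I • η) = - fderiv ℂ (fderiv ℂ F) x ξ η := by
    rw [q2, q1, smul_smul, I_mul_I, neg_one_smul]
  constructor
  · unfold C1_Hr
    rw [key ξ η, key (I • ξ) (I • η), q3, eI ξ, eI η, map_neg]
    ring
  · unfold C1_Hi
    rw [key ξ (I • η), key (I • ξ) η, q1, q2, eI ξ, eI η]
    ring

theorem C1_det (L : C2 →L[ℂ] C2) : ((L.restrictScalars ℝ : C2 →L[ℝ] C2)).det =
    Complex.normSq ((L e1).1 * (L e2).2 - (L e2).1 * (L e1).2) := by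
  have h1 : ((L.restrictScalars ℝ : C2 →L[ℝ] C2)).det = LinearMap.det ((L : C2 →ₗ[ℂ] C2).restrictScalars ℝ) := rfl
  rw [h1, LinearMap.det_restrictScalars, Algebra.norm_complex_apply]
  congr 1
  rw [← LinearMap.det_toMatrix (Module.Basis.finTwoProd ℂ), Matrix.det_fin_two]
  simp [LinearMap.toMatrix_apply, e1, e2]

theorem C1 : C1_stmt := by
  intro U V F u v hU hV hF hFU hu hv x hx
  have hFx : DifferentiableAt ℂ F x := (hF.contDiffAt (hV.mem_nhds hx)).differentiableAt (by norm_num)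
  rw [hFx.fderiv_restrictScalars ℝ, C1_det, abs_of_nonneg (Complex.normSq_nonneg _)]
  have hU1 := C1_H U V F u hU hV hF hFU hu x hx
  have hV1 := C1_H U V F v hU hV hF hFU hv x hx
  have su := C1_sym U u hU hu (F x) (hFU hx)
  have sv := C1_sym U v hU hv (F x) (hFU hx)
  have eA : ∀ (w : C2 → ℝ) (z : C2), hA w z = C1_Hr (fderiv ℝ (fderiv ℝ w) z) e1 e1 := fun w z => rfl
  have eC : ∀ (w : C2 → ℝ) (z : C2), hC w z = C1_Hr (fderiv ℝ (fderiv ℝ w) z) e2 e2 := fun w z => rfl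
  have eB : ∀ (w : C2 → ℝ) (z : C2), hB w z = C1_Hr (fderiv ℝ (fderiv ℝ w) z) e1 e2 := fun w z => rfl
  have eB' : ∀ (w : C2 → ℝ) (z : C2), hB' w z = C1_Hi (fderiv ℝ (fderiv ℝ w) z) e1 e2 := fun w z => rfl
  unfold dens
  rw [eA, eA, eC, eC, eB, eB, eB', eB', eA, eA, eC, eC, eB, eB, eB', eB']
  rw [(hU1 e1 e1).1, (hU1 e2 e2).1, (hU1 e1 e2).1, (hU1 e1 e2).2,
    (hV1 e1 e1).1, (hV1 e2 e2).1, (hV1 e1 e2).1, (hV1 e1 e2).2]
  generalize fderiv ℂ F x e1 = p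
  generalize fderiv ℂ F x e2 = q
  rw [C1_Hr_exp _ su p p, C1_Hr_exp _ su q q, C1_Hr_exp _ su p q, C1_Hi_exp _ su p q,
    C1_Hr_exp _ sv p p, C1_Hr_exp _ sv q q, C1_Hr_exp _ sv p q, C1_Hi_exp _ sv p q]
  generalize C1_Hr (fderiv ℝ (fderiv ℝ u) (F x)) e1 e1 = A
  generalize C1_Hr (fderiv ℝ (fderiv ℝ u) (F x)) e2 e2 = C
  generalize C1_Hr (fderiv ℝ (fderiv ℝ u) (F x)) e1 e2 = B
  generalize C1_Hi (fderiv ℝ (fderiv ℝ u) (F x)) e1 e2 = B1
  generalize C1_Hr (fderiv ℝ (fderiv ℝ v) (F x)) e1 e1 = A'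
  generalize C1_Hr (fderiv ℝ (fderiv ℝ v) (F x)) e2 e2 = C'
  generalize C1_Hr (fderiv ℝ (fderiv ℝ v) (F x)) e1 e2 = B'
  generalize C1_Hi (fderiv ℝ (fderiv ℝ v) (F x)) e1 e2 = B1'
  rw [← mul_div_assoc]
  congr 1
  rw [Complex.normSq_apply]
  simp only [sub_re, sub_im, mul_re, mul_im]
  ring

end

end MAP
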